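import Pool.Agent.Run7.h5.CS.Thm

set_option autoImplicit false

/-!
# MP_91b7ff_nt: which sets carry the `k`-th moment of zeta

For every `B` and `ε > 0` there are a measurable set `E` of reals and constants `c, C > 0` such that for every real
`0 < k ≤ B` (in particular for every positive integer `k ≤ B`), all `a ≥ 0`, `0 ≤ α < 1`, all large `T` and all `H`
with `T / (log T)^α ≤ H ≤ T`

* `E` contains at least the share `1 - ε` of `[T, T + H]`;
* whatever set `F` of measure at most `H (log T)^(-k²/4) exp (a k √(log log T))` is removed from `[T, T + H]`, or from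
  `E ∩ [T, T + H]`, the integral of `|ζ(1/2 + it)|^k` over the rest is at least
  `c exp (-a²) / (1 + a) · H (log T)^(k²/4)`;
* this is sharp in `E`: the set of the `t ∈ E ∩ [T, T + H]` with `|ζ(1/2 + it)| ≥ (log T)^(k/2) exp (-a √(log log T))`
  has at most that measure, and the integral over the rest of `E ∩ [T, T + H]` is at most
  `C exp (-a²) / (1 + a) · H (log T)^(k²/4)`;
* the integral over the part in `E ∩ [T, T + H]` of any set `F` of measure at most
  `H (log T)^(-k²/4) exp (-a k √(log log T))` is at most `C exp (-a²) / (1 + a) · H (log T)^(k²/4)`;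
* this too is sharp: the set of the `t ∈ E ∩ [T, T + H]` with
  `|ζ(1/2 + it)| ≥ (log T)^(k/2) exp (a √(log log T))` has at most that measure, and the integral over it is at least
  `c exp (-a²) / (1 + a) · H (log T)^(k²/4)`.
-/

namespace Pool.Agent.Results.MP_91b7ff_nt.CarryingSets

open MeasureTheory Filter

/-- `|ζ(1/2 + it)|` -/
noncomputable def Z (t : ℝ) : ℝ := ‖riemannZeta (1 / 2 + t * Complex.I)‖

/-- The set of the `t ∈ E ∩ [T, T + H]` with `|ζ(1/2 + it)| ≥ (log T)^(k/2) exp (a √(log log T))`. -/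
def Big (E : Set ℝ) (T H k a : ℝ) : Set ℝ :=
  {t ∈ E ∩ Set.Icc T (T + H) | Real.log T ^ (k / 2) * Real.exp (a * Real.sqrt (Real.log (Real.log T))) ≤ Z t}

/-- `H (log T)^(-k²/4) exp (a k √(log log T))`, the bound for the measure of the removed sets. -/
noncomputable def size (T H k a : ℝ) : ℝ :=
  H * Real.log T ^ (-(k ^ 2 / 4)) * Real.exp (a * k * Real.sqrt (Real.log (Real.log T)))

/-- `exp (-a²) / (1 + a) · H (log T)^(k²/4)`. -/
noncomputable def mass (T H k a : ℝ) : ℝ := Real.exp (-a ^ 2) / (1 + a) * (H * Real.log T ^ (k ^ 2 / 4))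

theorem result : ∀ B ε : ℝ, 0 < B → 0 < ε → ∃ (E : Set ℝ) (c C : ℝ), MeasurableSet E ∧ 0 < c ∧ 0 < C ∧
    ∀ k a α : ℝ, 0 < k → k ≤ B → 0 ≤ a → 0 ≤ α → α < 1 → ∀ᶠ T : ℝ in atTop, ∀ H : ℝ,
      T / Real.log T ^ α ≤ H → H ≤ T →
      (1 - ε) * H ≤ volume.real (E ∩ Set.Icc T (T + H)) ∧
      (∀ F : Set ℝ, MeasurableSet F → volume.real (F ∩ Set.Icc T (T + H)) ≤ size T H k a →
        c * mass T H k a ≤ ∫ t in (E ∩ Set.Icc T (T + H)) \ F, Z t ^ k ∧
        c * mass T H k a ≤ ∫ t in Set.Icc T (T + H) \ F, Z t ^ k) ∧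
      (volume.real (Big E T H k (-a)) ≤ size T H k a ∧
        ∫ t in (E ∩ Set.Icc T (T + H)) \ Big E T H k (-a), Z t ^ k ≤ C * mass T H k a) ∧
      (∀ F : Set ℝ, MeasurableSet F → volume.real (F ∩ Set.Icc T (T + H)) ≤ size T H k (-a) →
        ∫ t in E ∩ Set.Icc T (T + H) ∩ F, Z t ^ k ≤ C * mass T H k a) ∧
      (volume.real (Big E T H k a) ≤ size T H k (-a) ∧ c * mass T H k a ≤ ∫ t in Big E T H k a, Z t ^ k) := by
  intro B ε hB hε
  obtain ⟨E, c, C, mE, hc, hC, h⟩ := Run7.h5.CS.thm B ε hB hε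
  refine ⟨E, c, C, mE, hc, hC, fun k a α hk hkB ha h0 h1 => ?_⟩
  filter_upwards [h k a α hk hkB ha h0 h1] with T hT H hH1 hH2
  obtain ⟨hl, hT⟩ := hT
  obtain ⟨a1, a2, ⟨a3, a4⟩, a5, a6, a7⟩ := hT H hH1 hH2
  have r : ∀ x : ℝ, Real.log T ^ x = Real.exp (x * Real.log (Real.log T)) := fun x => by
    rw [Real.rpow_def_of_pos hl, mul_comm]
  have eB : ∀ x : ℝ, Big E T H k x = Run7.h5.CS.BigL E T H k x := by
    intro x
    ext t
    have : Real.log T ^ (k / 2) * Real.exp (x * Real.sqrt (Real.log (Real.log T))) =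
        Real.exp (k / 2 * Real.log (Real.log T) + x * Real.sqrt (Real.log (Real.log T))) := by
      rw [Real.exp_add, r]
    unfold Big Run7.h5.CS.BigL
    rw [this]
    rfl
  have eS : size T H k a = H * Real.exp (-(k ^ 2 / 4 * Real.log (Real.log T)) +
      a * k * Real.sqrt (Real.log (Real.log T))) := by
    unfold size
    rw [Real.exp_add, r, neg_mul]
    ring
  have eS' : size T H k (-a) = H * Real.exp (-(k ^ 2 / 4 * Real.log (Real.log T)) -
      a * k * Real.sqrt (Real.log (Real.log T))) := by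
    unfold size
    rw [sub_eq_add_neg, Real.exp_add, r, neg_mul, neg_mul, neg_mul]
    ring
  have eM : ∀ x : ℝ, x * mass T H k a = x * Run7.h5.CS.prof a *
      (H * Real.exp (k ^ 2 / 4 * Real.log (Real.log T))) := by
    intro x
    unfold mass Run7.h5.CS.prof
    rw [r]
    ring
  simp only [eB, eS, eS', eM]
  exact ⟨a1, a2, ⟨a3, a4⟩, a5, a6, a7⟩

end Pool.Agent.Results.MP_91b7ff_nt.CarryingSets
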