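import Pool.Agent.Run7.h74.SC.Fin

set_option autoImplicit false

/-!
# MP_91b7ff_nt: the local law and the moments of zeta in every sector of directions, in short intervals

For every `B`, all `ε, δ₀ > 0` and every `ρ > 0` there are a measurable set `E` of reals and `c, C, W > 0`,
`0 < δ ≤ δ₀` such that

* for `t ∈ E` with `2^j ≤ t < 2^(j+1)` we have `ζ(1/2+it) ≠ 0`, and `log |ζ(1/2+it)|` differs by at most `W` from the
  real part of the sum of `p^(-1/2-it)` over the primes `p ≤ 2^(δ j)`;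

and for all `0 ≤ α < 1`, all large `T` and all `H` with `T / (log T)^α ≤ H ≤ T`

* `E` contains at least the share `1 - ε` of `[T, T + H]`;

and for every complex `ω` with `|ω| = 1`, uniformly in `ω`,

* for `|V| ≤ B log log T` the measure of the `t ∈ E ∩ [T, T + H]` with `|ζ(1/2+it)/|ζ(1/2+it)| - ω| < ρ` and
  `|log |ζ(1/2+it)| - V| ≤ W` lies between `c` and `C` times `H exp (-V² / log log T) / √(log log T)`;
* for real `k` with `|k| ≤ B` the integral of `|ζ(1/2+it)|^k` over the `t ∈ E ∩ [T, T + H]` with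
  `|ζ(1/2+it)/|ζ(1/2+it)| - ω| < ρ` lies between `c` and `C` times `H (log T)^(k²/4)` (for `k = 0`: the set of these
  `t` has measure at least `c H`).
-/

namespace Pool.Agent.Results.MP_91b7ff_nt.EverySector

open Filter MeasureTheory

/-- zeta on the critical line -/
noncomputable def zt (t : ℝ) : ℂ := riemannZeta (1 / 2 + t * Complex.I)

/-- The set of the `t ∈ E ∩ [T, T + H]` with `ζ(1/2+it) ≠ 0` whose direction `ζ(1/2+it)/|ζ(1/2+it)|` has distance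
less than `ρ` from `ω`. -/
def Part (ρ : ℝ) (ω : ℂ) (E : Set ℝ) (T H : ℝ) : Set ℝ :=
  {t ∈ E ∩ Set.Icc T (T + H) | zt t ≠ 0 ∧ ‖zt t / (‖zt t‖ : ℂ) - ω‖ < ρ}

/-- The part of this set with `V - W ≤ log |ζ(1/2+it)| ≤ V + W`. -/
def Level (ρ : ℝ) (ω : ℂ) (E : Set ℝ) (T H V W : ℝ) : Set ℝ :=
  {t ∈ Part ρ ω E T H | Real.exp (V - W) ≤ ‖zt t‖ ∧ ‖zt t‖ ≤ Real.exp (V + W)}

/-- The Gaussian weight `exp (-V² / log log T) / √(log log T)`. -/
noncomputable def gauss (T V : ℝ) : ℝ :=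
  Real.exp (-(V ^ 2 / Real.log (Real.log T))) / Real.sqrt (Real.log (Real.log T))

/-- The real part of the sum of `p^(-1/2-it)` over the primes `p ≤ y`. -/
noncomputable def primeSum (y t : ℝ) : ℝ :=
  (∑ p ∈ (Finset.Icc 1 ⌊y⌋₊).filter Nat.Prime, (p : ℂ) ^ (-(1 / 2 + t * Complex.I))).re

theorem result : ∀ B ε δ₀ ρ : ℝ, 0 ≤ B → 0 < ε → 0 < δ₀ → 0 < ρ →
    ∃ (E : Set ℝ) (c C W δ : ℝ), MeasurableSet E ∧ 0 < c ∧ 0 < C ∧ 0 < W ∧ 0 < δ ∧ δ ≤ δ₀ ∧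
    (∀ j : ℕ, ∀ t ∈ E, (2 : ℝ) ^ j ≤ t → t < (2 : ℝ) ^ (j + 1) → zt t ≠ 0 ∧
      |Real.log ‖zt t‖ - primeSum (2 ^ (δ * j)) t| ≤ W) ∧
    ∀ α : ℝ, 0 ≤ α → α < 1 → ∀ᶠ T : ℝ in atTop, ∀ H : ℝ, T / Real.log T ^ α ≤ H → H ≤ T →
      (1 - ε) * H ≤ volume.real (E ∩ Set.Icc T (T + H)) ∧
      ∀ ω : ℂ, ‖ω‖ = 1 →
        (∀ V : ℝ, |V| ≤ B * Real.log (Real.log T) →
          c * H * gauss T V ≤ volume.real (Level ρ ω E T H V W) ∧
          volume.real (Level ρ ω E T H V W) ≤ C * H * gauss T V) ∧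
        ∀ k : ℝ, |k| ≤ B →
          IntegrableOn (fun t : ℝ => ‖zt t‖ ^ k) (Part ρ ω E T H) ∧
          c * H * Real.log T ^ (k ^ 2 / 4) ≤ ∫ t in Part ρ ω E T H, ‖zt t‖ ^ k ∧
          ∫ t in Part ρ ω E T H, ‖zt t‖ ^ k ≤ C * H * Real.log T ^ (k ^ 2 / 4) := by
  intro B ε δ₀ ρ hB hε hδ₀ hρ
  have hρ0 : 0 < min ρ 1 := lt_min hρ one_pos
  obtain ⟨E, c, C, W, δ, mE, hc, hC, hW, hδ, hδδ, hq, h⟩ :=
    Pool.Agent.Run7.h74.SC.a_FINd hρ0 (min_le_right _ _) B ε δ₀ hB hε hδ₀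
  have hX : ∀ t : ℝ, ‖zt t‖ = Pool.Agent.TH806.Xz t := fun t => rfl
  have hZ : ∀ t : ℝ, zt t = Pool.Agent.Run7.h74.SC.Zt t := fun t => rfl
  refine ⟨E, c, C, W, δ, mE, hc, hC, hW, hδ, hδδ, ?_, fun α h0 h1 => ?_⟩
  · intro j t ht h1 h2
    obtain ⟨q1, q2⟩ := hq j t ht h1 h2
    have e : ((2 : ℝ) ^ j) ^ δ = 2 ^ (δ * j) := by
      rw [← Real.rpow_natCast, ← Real.rpow_mul (by norm_num)]
      congr 1; ring
    rw [e] at q2
    rw [← hX t] at q1 q2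
    exact ⟨norm_pos_iff.mp q1, q2⟩
  filter_upwards [h α h0 h1, eventually_gt_atTop (1:ℝ)] with T hT hT1 H hH1 hH2
  obtain ⟨a1, a2, a3⟩ := hT H hH1 hH2
  have hH0 : 0 ≤ H := by
    refine le_trans ?_ hH1
    have : 0 < Real.log T := Real.log_pos hT1
    positivity
  -- the sector written with the quotient
  have hsec : ∀ (r : ℝ) (ω : ℂ) (t : ℝ), 0 < r → (t ∈ Pool.Agent.Run7.h74.SC.Sec r ω ↔
      zt t ≠ 0 ∧ ‖zt t / (‖zt t‖ : ℂ) - ω‖ < r) := by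
    intro r ω t hr
    have key : zt t ≠ 0 → ‖zt t - ω * ((‖zt t‖ : ℝ) : ℂ)‖ = ‖zt t‖ * ‖zt t / (‖zt t‖ : ℂ) - ω‖ := by
      intro h
      have h0 : ((‖zt t‖ : ℝ) : ℂ) ≠ 0 := by exact_mod_cast norm_ne_zero_iff.mpr h
      have e : zt t - ω * ((‖zt t‖ : ℝ) : ℂ) = ((‖zt t‖ : ℝ) : ℂ) * (zt t / (‖zt t‖ : ℂ) - ω) := by
        field_simp
      rw [e, norm_mul, Complex.norm_real, norm_norm]
    change ‖zt t - ω * ((‖zt t‖ : ℝ) : ℂ)‖ < r * ‖zt t‖ ↔ _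
    constructor
    · intro h1
      have h2 : zt t ≠ 0 := by
        intro h3
        rw [h3] at h1
        simp at h1
      refine ⟨h2, ?_⟩
      rw [key h2, mul_comm r] at h1
      exact lt_of_mul_lt_mul_left h1 (norm_nonneg _)
    · rintro ⟨h2, h1⟩
      rw [key h2, mul_comm r]
      exact mul_lt_mul_of_pos_left h1 (norm_pos_iff.mpr h2)
  have hpart : ∀ ω : ℂ, Part ρ ω E T H = Set.Icc T (T + H) ∩ (E ∩ Pool.Agent.Run7.h74.SC.Sec ρ ω) := by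
    intro ω
    ext t
    constructor
    · rintro ⟨⟨h1, h2⟩, h3⟩
      exact ⟨h2, h1, (hsec ρ ω t hρ).mpr h3⟩
    · rintro ⟨h2, h1, h3⟩
      exact ⟨⟨h1, h2⟩, (hsec ρ ω t hρ).mp h3⟩
  have hsm : ∀ ω : ℂ, Pool.Agent.Run7.h74.SC.Sec (min ρ 1) ω ⊆ Pool.Agent.Run7.h74.SC.Sec ρ ω := by
    intro ω t ht
    rw [hsec _ _ _ hρ0] at ht
    exact (hsec ρ ω t hρ).mpr ⟨ht.1, lt_of_lt_of_le ht.2 (min_le_left _ _)⟩
  have hset : ∀ (ω : ℂ) (V : ℝ), Level ρ ω E T H V W =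
      Set.Icc T (T + H) ∩ (E ∩ Pool.Agent.TH806.LM.Lev V W ∩ Pool.Agent.Run7.h74.SC.Sec ρ ω) := by
    intro ω V
    ext t
    constructor
    · rintro ⟨⟨⟨h1, h2⟩, h3⟩, h4, h5⟩
      rw [hX t] at h4 h5
      exact ⟨h2, ⟨h1, h4, h5⟩, (hsec ρ ω t hρ).mpr h3⟩
    · rintro ⟨h2, ⟨h1, h4, h5⟩, h3⟩
      rw [← hX t] at h4 h5
      exact ⟨⟨⟨h1, h2⟩, (hsec ρ ω t hρ).mp h3⟩, h4, h5⟩
  have hfin : volume (Set.Icc T (T + H)) ≠ ⊤ := by
    rw [Real.volume_Icc]; exact ENNReal.ofReal_ne_top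
  refine ⟨?_, fun ω hω => ⟨fun V hV => ?_, fun k hk => ?_⟩⟩
  · have e1 : volume.real (Set.Icc T (T + H)) = H := by
      rw [Real.volume_real_Icc_of_le (by linarith)]; ring
    have e2 := measureReal_inter_add_sdiff (μ := volume) (s := Set.Icc T (T + H)) mE hfin
    rw [Set.inter_comm E]
    have e3 : Set.Icc T (T + H) \ E = Set.Icc T (T + H) ∩ Eᶜ := rfl
    rw [e3, e1] at e2
    linarith
  · obtain ⟨b1, b2⟩ := a2 V hV
    rw [hset ω V]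
    have b3 : volume.real (Set.Icc T (T + H) ∩
        (E ∩ Pool.Agent.TH806.LM.Lev V W ∩ Pool.Agent.Run7.h74.SC.Sec ρ ω)) ≤
        volume.real (Set.Icc T (T + H) ∩ (E ∩ Pool.Agent.TH806.LM.Lev V W)) :=
      measureReal_mono (Set.inter_subset_inter_right _ Set.inter_subset_left)
        (ne_top_of_le_ne_top hfin (measure_mono Set.inter_subset_left))
    have b4 : volume.real (Set.Icc T (T + H) ∩
        (E ∩ Pool.Agent.TH806.LM.Lev V W ∩ Pool.Agent.Run7.h74.SC.Sec (min ρ 1) ω)) ≤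
        volume.real (Set.Icc T (T + H) ∩ (E ∩ Pool.Agent.TH806.LM.Lev V W ∩ Pool.Agent.Run7.h74.SC.Sec ρ ω)) :=
      measureReal_mono (Set.inter_subset_inter_right _ (Set.inter_subset_inter_right _ (hsm ω)))
        (ne_top_of_le_ne_top hfin (measure_mono Set.inter_subset_left))
    refine ⟨le_trans (le_of_eq ?_) ((b1 ω hω).trans b4), (b3.trans b2).trans (le_of_eq ?_)⟩
    · unfold gauss Pool.Agent.TH806.LM.gg; ring
    · unfold gauss Pool.Agent.TH806.LM.gg; ring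
  · have hk2 : |k / 2| ≤ B := by
      rw [abs_div, abs_of_pos (by norm_num : (0:ℝ) < 2)]
      linarith [abs_nonneg k]
    obtain ⟨b0, b1, b2⟩ := a3 (k / 2) hk2
    have e1 : 2 * (k / 2) = k := by ring
    have e2 : (k / 2) ^ 2 = k ^ 2 / 4 := by ring
    rw [e2] at b1 b2
    simp only [e1] at b0 b1 b2
    have hsub : Set.Icc T (T + H) ∩ (E ∩ Pool.Agent.Run7.h74.SC.Sec ρ ω) ⊆ Set.Icc T (T + H) ∩ E :=
      Set.inter_subset_inter_right _ Set.inter_subset_left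
    have hsub2 : Set.Icc T (T + H) ∩ (E ∩ Pool.Agent.Run7.h74.SC.Sec (min ρ 1) ω) ⊆
        Set.Icc T (T + H) ∩ (E ∩ Pool.Agent.Run7.h74.SC.Sec ρ ω) :=
      Set.inter_subset_inter_right _ (Set.inter_subset_inter_right _ (hsm ω))
    simp only [hX]
    rw [hpart ω]
    have hnn : ∀ s : Set ℝ, 0 ≤ᵐ[volume.restrict s] fun t => Pool.Agent.TH806.Xz t ^ k := fun s =>
      Filter.Eventually.of_forall fun t => Real.rpow_nonneg (by rw [← hX t]; exact norm_nonneg _) _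
    have b3 : ∫ t in Set.Icc T (T + H) ∩ (E ∩ Pool.Agent.Run7.h74.SC.Sec ρ ω), Pool.Agent.TH806.Xz t ^ k ≤
        ∫ t in Set.Icc T (T + H) ∩ E, Pool.Agent.TH806.Xz t ^ k :=
      setIntegral_mono_set b0 (hnn _) hsub.eventuallyLE
    have b4 : ∫ t in Set.Icc T (T + H) ∩ (E ∩ Pool.Agent.Run7.h74.SC.Sec (min ρ 1) ω), Pool.Agent.TH806.Xz t ^ k ≤
        ∫ t in Set.Icc T (T + H) ∩ (E ∩ Pool.Agent.Run7.h74.SC.Sec ρ ω), Pool.Agent.TH806.Xz t ^ k :=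
      setIntegral_mono_set (b0.mono_set hsub) (hnn _) hsub2.eventuallyLE
    refine ⟨b0.mono_set hsub, le_trans (le_of_eq ?_) ((b1 ω hω).trans b4), (b3.trans b2).trans (le_of_eq ?_)⟩
    · ring
    · ring

end Pool.Agent.Results.MP_91b7ff_nt.EverySector
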