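import Pool.Agent.Run7.h291.WF.Frz
import Pool.Agent.Run7.h42.WN_MNB
import Pool.Agent.Run7.h42.WN_MAXU
import Pool.Agent.Run7.h772.WN_ZML

set_option autoImplicit false

/-!
# Freezing of the moments of zeta, and its maximum, in almost all windows near the critical line

At distance `δ` from the critical line, as soon as `δ log T / log² (1/δ)` is large, for almost all `t ∈ [0, T]`, for all
windows `[t, t + δ^(-τ)]` with `θ₁ ≤ τ ≤ θ₂` at once (`0 < θ₁ ≤ θ₂` arbitrary) and for all real `0 < k ≤ K` at once, the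
mean of `|ζ(1/2 + δ + iu)|^(2k)` over the window is `δ^(-φ(k, τ) + o(1))`, where `φ(k, τ) = k²` for `k ≤ √(1+τ)` and
`φ(k, τ) = 2 k √(1+τ) - (1+τ)` beyond, and the maximum of `|ζ|` over the window is `δ^(-√(1+τ) + o(1))`.

Plan and assembly by helper291; the upper bound for the maximum (`S_MAXU`) and the mean of the two-point function
(`S_MNB`) by helper42, the moments of zeta without small primes near the line `1` (`S_ZML`) by helper772; the joint
moments outside tiny sets are the starting library `N748/MJ`, the maximal inequality is by helper311.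
-/

namespace Pool.Agent.Results.MP_91b7ff_nt.FreezingInWindows

open MeasureTheory Filter Topology

/-- the modulus of zeta at distance `δ` from the critical line and height `u` -/
noncomputable def z (δ u : ℝ) : ℝ := ‖riemannZeta (1 / 2 + δ + u * Complex.I)‖

/-- the mean of `|ζ|^(2k)` over the window `[t, t + H]` -/
noncomputable def M (k δ t H : ℝ) : ℝ := (1 / H) * ∫ u in Set.Icc t (t + H), z δ u ^ (2 * k)

/-- the exponent of the moment of order `2k` over windows of length `δ^(-τ)` -/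
noncomputable def φ (k τ : ℝ) : ℝ := if k ≤ Real.sqrt (1 + τ) then k ^ 2 else 2 * k * Real.sqrt (1 + τ) - (1 + τ)

open Run7.h291.WN Run7.h291.WF Pool.Agent.N748.MG

theorem result (θ₁ θ₂ K ε : ℝ) (h1 : 0 < θ₁) (h12 : θ₁ ≤ θ₂) (hK : 0 < K) (hε : 0 < ε) :
    ∃ lam δ0 : ℝ, 0 < lam ∧ 0 < δ0 ∧ δ0 ≤ 1 / 16 ∧ ∀ᶠ T : ℝ in atTop, ∀ δ : ℝ, 0 < δ → δ ≤ δ0 →
      lam * Real.log (1 / δ) ^ 2 ≤ δ * Real.log T →
      volume {t : ℝ | t ∈ Set.Icc 0 T ∧ ¬ ∀ τ ∈ Set.Icc θ₁ θ₂,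
        (∀ k : ℝ, 0 < k → k ≤ K → δ ^ (-(φ k τ) + ε) ≤ M k δ t (δ ^ (-τ)) ∧
          M k δ t (δ ^ (-τ)) ≤ δ ^ (-(φ k τ) - ε)) ∧
        (∀ u ∈ Set.Icc t (t + δ ^ (-τ)), z δ u ≤ δ ^ (-(Real.sqrt (1 + τ)) - ε)) ∧
        ∃ u ∈ Set.Icc t (t + δ ^ (-τ)), δ ^ (-(Real.sqrt (1 + τ)) + ε) ≤ z δ u} ≤ ENNReal.ofReal (ε * T) := by
  have hM := Run7.h42.WN.mnb Run7.h772.zml
  refine (freeze hM Run7.h42.WN.maxu θ₁ θ₂ K ε h1 h12 hK hε).mono ?_
  intro T δ hT hδ hδ1 hvol
  refine le_trans (measure_mono ?_) hvol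
  rintro t ⟨⟨t0, t1⟩, ht⟩
  push Not at ht
  obtain ⟨τ, hτ, ht⟩ := ht
  refine ⟨t0, t1, τ, hτ, fun hF => ?_⟩
  obtain ⟨F1, F2, F3⟩ := hF
  have hL : 0 < Real.log (1 / δ) := by
    have := log_inv_ge hδ hδ1
    linarith
  have hτ0 : 0 < τ := by linarith [hτ.1]
  have hH : 0 < δ ^ (-τ) := Real.rpow_pos_of_pos hδ _
  have hφ : ∀ k, φ k τ = phi k (Real.sqrt (1 + τ)) := by
    intro k
    unfold φ phi
    rw [Real.sq_sqrt (by linarith)]
  have hMw : ∀ k, M k δ t (δ ^ (-τ)) = Mw (mz δ) t (δ ^ (-τ)) k := by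
    intro k
    unfold M Mw
    rw [intervalIntegral.integral_of_le (by linarith), ← integral_Icc_eq_integral_Ioc]
    rfl
  have hpow : ∀ x : ℝ, Real.log (δ ^ x) = -(x * Real.log (1 / δ)) := by
    intro x
    rw [Real.log_rpow hδ, one_div, Real.log_inv]
    ring
  refine absurd (ht ?_ ?_) ?_
  · intro k hk hkK
    obtain ⟨g1, g2⟩ := F1 k hk hkK
    rw [hφ, hMw]
    rw [abs_le, sub_eq_add_neg] at g2
    have g3 : (phi k (Real.sqrt (1 + τ)) - ε) * Real.log (1 / δ) ≤ Real.log (Mw (mz δ) t (δ ^ (-τ)) k) := by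
      rw [← le_div_iff₀ hL]
      linarith [g2.1]
    have g4 : Real.log (Mw (mz δ) t (δ ^ (-τ)) k) ≤ (phi k (Real.sqrt (1 + τ)) + ε) * Real.log (1 / δ) := by
      rw [← div_le_iff₀ hL]
      linarith [g2.2]
    constructor
    · refine (Real.log_le_log_iff (Real.rpow_pos_of_pos hδ _) g1).1 ?_
      rw [hpow]
      linarith
    · refine (Real.log_le_log_iff g1 (Real.rpow_pos_of_pos hδ _)).1 ?_
      rw [hpow]
      linarith
  · intro u hu
    have h3 := F2 u hu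
    rwa [neg_add'] at h3
  · obtain ⟨u, hu, h3⟩ := F3
    push Not
    refine ⟨u, hu, ?_⟩
    rwa [neg_sub, sub_eq_add_neg, add_comm] at h3

end Pool.Agent.Results.MP_91b7ff_nt.FreezingInWindows
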