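import Pool.Agent.Run7.h772.MM.Ya
import Pool.Agent.N748.MJ.Fin

set_option autoImplicit false

/-!
# Moments of moments of zeta near the critical line: all windows, all exponents

At distance `δ = d T` from the critical line, with `δ log T / log² (1/δ) → ∞`, the local moment over the window
`[t, t + H]` is the mean of `|ζ(1/2 + δ + iu)|^(2k)` over the window. We compute the moments of all integer orders
`q = n + 1 ≥ 2` of this random variable (`t` uniform in `[0, T]`), for every real `k > 0` and every window function `H`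
with `H/δ → ∞` and `H ≤ T^(1/2)`, the rare points where `|ζ|` exceeds `(2δ)^(-V)` (`V > q k` arbitrary) being left out.
There are three phases: subcritical `q k² < 1`, critical `q k² = 1` (a logarithm) and supercritical `q k² > 1` (the
clusters of `q` points at mutual distances of order `δ` compete with independent points).
-/

namespace Pool.Agent.Results.MP_91b7ff_nt.MomentsOfMoments

open MeasureTheory Filter Topology Finset

/-- the modulus of zeta at distance `δ` from the critical line and height `u` -/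
noncomputable def z (δ u : ℝ) : ℝ := ‖riemannZeta (1 / 2 + δ + u * Complex.I)‖

/-- the moment of order `q` (mean over `t ∈ [0, T]`) of the mean over the window `[t, t + H]` of
`|ζ(1/2 + δ + iu)|^(2k)`, the points with `|ζ| > (2δ)^(-V)` left out -/
noncomputable def MM (k V : ℝ) (q : ℕ) (δ H T : ℝ) : ℝ :=
  (1 / T) * ∫ t in (0:ℝ)..T, ((1 / H) * ∫ u in t..(t + H), if z δ u ≤ (2 * δ) ^ (-V) then z δ u ^ (2 * k) else 0) ^ q

/-- the coefficient of `x^m` in `(1-x)^(-s)` -/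
noncomputable def c (s : ℂ) (m : ℕ) : ℂ := ∏ i ∈ range m, (s + i) / ((i : ℂ) + 1)

/-- the arithmetic factor of the moment of order `2k` -/
noncomputable def a (k : ℝ) : ℝ :=
  (∏' p : Nat.Primes, ((1 - 1 / (p : ℂ)) ^ ((k : ℂ) ^ 2) * ∑' m : ℕ, c k m ^ 2 * (1 / (p : ℂ)) ^ m)).re

/-- the arithmetic factor of the moment with the shifts `h`, all exponents `2k` -/
noncomputable def A (k : ℝ) {m : ℕ} (h : Fin m → ℝ) : ℝ :=
  ∏' p : Nat.Primes, (∏ j, ∏ l, ‖1 - (p : ℂ) ^ (-(1 + ((h j - h l : ℝ) : ℂ) * Complex.I))‖ ^ (k ^ 2)) *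
    ∑' r : ℕ, ‖∑ μ ∈ piAntidiag univ r, ∏ j, c k (μ j) * (p : ℂ) ^ (-((μ j * h j : ℝ) * Complex.I))‖ ^ 2 * (1 / (p : ℝ)) ^ r

/-- subcritical phase: the constant for the windows of length `r` -/
noncomputable def F (n : ℕ) (k r : ℝ) : ℝ :=
  ∫ u in Set.Icc (0 : Fin (n + 1) → ℝ) 1, A k (fun j => r * u j) *
    ∏ j, ∏ l ∈ univ.erase j, ‖riemannZeta (1 + (r * (u j - u l) : ℝ) * Complex.I)‖ ^ (k ^ 2)

/-- critical phase: the integral over the shapes of the clusters of `n + 1` points, the first at `0` -/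
noncomputable def S (n : ℕ) (κ : ℝ) : ℝ :=
  ∫ y in {y : Fin n → ℝ | 1 < ‖y‖ ∧ ‖y‖ ≤ Real.exp 1}, ∏ j : Fin (n + 1), ∏ l ∈ univ.erase j,
    |(Fin.cons 0 y : Fin (n + 1) → ℝ) j - (Fin.cons 0 y : Fin (n + 1) → ℝ) l| ^ (-κ)

/-- supercritical phase: the integral over the clusters of `n + 1` points, the first at `0` -/
noncomputable def J (n : ℕ) (κ : ℝ) : ℝ :=
  ∫ x : Fin n → ℝ, ∏ j : Fin (n + 1), ∏ l : Fin (n + 1),
    (1 + ((Fin.cons 0 x : Fin (n + 1) → ℝ) j - (Fin.cons 0 x : Fin (n + 1) → ℝ) l) ^ 2) ^ (-(κ / 2))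

/-- the main term in the three phases -/
noncomputable def P (n : ℕ) (k δ H : ℝ) : ℝ :=
  if k ^ 2 * (n + 1) < 1 then F n k H
  else if k ^ 2 * (n + 1) = 1 then
    a k ^ (n + 1) + a ((n + 1) * k) * S n (k ^ 2) * (Real.log (min H 1 / δ) * (1 / H) ^ n)
  else a k ^ (n + 1) + a ((n + 1) * k) * J n (k ^ 2) * ((2 * δ) ^ (1 - k ^ 2 * (n + 1)) / H) ^ n

open Pool.Agent.N748.MG Pool.Agent.N748.MJ
open Run7.h772.MM (Ar ga Ar_eq prod_erase pn_icc)

lemma A_eq (k : ℝ) {m : ℕ} (h : Fin m → ℝ) : A k h = Ar k h := by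
  rw [Ar_eq posF]
  unfold A
  refine tprod_congr fun p => ?_
  unfold ga
  congr 1
  · refine prod_congr rfl fun j _ => prod_congr rfl fun l _ => ?_
    unfold Pool.Agent.N748.MJ.POSV.bs Pool.Agent.N748.MJ.POSV.pu
    rw [sq k]
    simp

lemma F_eq (n : ℕ) (k r : ℝ) : F n k r = Run7.h772.MM.Fs n k r := by
  unfold F Run7.h772.MM.Fs
  rw [pn_icc]
  refine integral_congr_ae (Eventually.of_forall fun u => ?_)
  show A k (fun j => r * u j) *
    ∏ j, ∏ l ∈ univ.erase j, ‖riemannZeta (1 + (r * (u j - u l) : ℝ) * Complex.I)‖ ^ (k ^ 2) = _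
  rw [A_eq]
  congr 1
  refine prod_congr rfl fun j _ => ?_
  rw [← prod_erase j (fun l => ‖riemannZeta (1 + (r * (u j - u l) : ℝ) * Complex.I)‖ ^ (k ^ 2)), sq k]
  refine prod_congr rfl fun i _ => ?_
  unfold Run7.h772.MM.Z
  congr 4
  simp

lemma S_eq (n : ℕ) (κ : ℝ) : S n κ = Run7.h772.MM.Cn κ n := by
  unfold S Run7.h772.MM.Cn Run7.h772.MM.Shl Run7.h772.MM.KR
  refine integral_congr_ae (Eventually.of_forall fun y => ?_)
  refine prod_congr rfl fun j _ => ?_
  rw [← prod_erase j (fun l => |(Fin.cons 0 y : Fin (n + 1) → ℝ) j - (Fin.cons 0 y : Fin (n + 1) → ℝ) l| ^ (-κ))]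
  refine prod_congr rfl fun i _ => ?_
  unfold Run7.h772.MM.hat
  rw [zero_pow two_ne_zero, zero_add, ← sq_abs, ← Real.rpow_natCast, ← Real.rpow_mul (abs_nonneg _)]
  congr 1
  push_cast
  ring

lemma a_eq (n : ℕ) (k : ℝ) : (aC (((n + 1 : ℕ) * k : ℝ) : ℂ)).re = a ((n + 1) * k) := by
  rw [Nat.cast_succ]
  rfl

theorem result (d H : ℝ → ℝ) (hd : ∀ᶠ T : ℝ in atTop, 0 < d T) (hd0 : Tendsto d atTop (𝓝 0))
    (hdL : Tendsto (fun T : ℝ => d T * Real.log T / Real.log (1 / d T) ^ 2) atTop atTop)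
    (hHd : Tendsto (fun T => H T / d T) atTop atTop) (hHT : ∀ᶠ T : ℝ in atTop, H T ≤ T ^ ((1:ℝ) / 2))
    (n : ℕ) (hn : 1 ≤ n) (k V : ℝ) (hk : 0 < k) (hV : (n + 1) * k < V) :
    Tendsto (fun T : ℝ => (2 * d T) ^ (k ^ 2 * (n + 1)) * MM k V (n + 1) (d T) (H T) T / P n k (d T) (H T))
      atTop (𝓝 1) := by
  have hA : Ad d := ⟨hd, hd0, hdL⟩
  unfold P
  rcases lt_trichotomy (k ^ 2 * (n + 1)) 1 with h1 | h1 | h1
  · simp only [if_pos h1]
    simp_rw [F_eq]
    rw [sq k] at h1 ⊢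
    exact Run7.h772.MM.suball smF posF conF av0F hA hHd hHT n k V hk hV h1
  · simp only [if_neg (not_lt.2 h1.ge), if_pos h1]
    rw [S_eq, ← a_eq]
    rw [sq k] at h1 ⊢
    exact Run7.h772.MM.critall smF posF conF av0F hA hHd hHT n hn k V hk hV h1
  · simp only [if_neg (not_lt.2 h1.le), if_neg h1.ne']
    rw [← a_eq]
    rw [sq k] at h1 ⊢
    exact Run7.h772.MM.superall smF posF conF av0F hA hHd hHT n hn k V hk hV h1

end Pool.Agent.Results.MP_91b7ff_nt.MomentsOfMoments
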